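import Mathlib
import Pool.Agent.W871.HI.Stm3

set_option autoImplicit false

/-!
# MP_5f0aae_co: sums over permutations as sums over ordered cycle types
-/

open Finset

namespace Pool.Agent.W42.HI

open Pool.Agent.W871.HI

noncomputable section

/-! ### permutations with a marked point of given period -/

/-- the permutation which rotates the first summand -/
def glue (n q : ℕ) (ρ : Equiv.Perm (Fin q)) : Equiv.Perm (Fin (n + 1) ⊕ Fin q) :=
  Equiv.sumCongr (finRotate (n + 1)) ρ

lemma glue_iter (n q : ℕ) (ρ : Equiv.Perm (Fin q)) (i : ℕ) :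
    (glue n q ρ)^[i] (Sum.inl 0) = Sum.inl (⟨i % (n + 1), Nat.mod_lt _ (Nat.succ_pos n)⟩ : Fin (n + 1)) := by
  induction i with
  | zero => simp
  | succ i ih =>
    rw [Function.iterate_succ_apply', ih]
    unfold glue
    rw [Equiv.sumCongr_apply, Sum.map_inl, finRotate_apply]
    congr 1
    apply Fin.ext
    rw [Fin.val_add, Fin.val_one']
    simp [Nat.add_mod]

lemma permCongr_iter {V V' : Type} (e : V ≃ V') (σ : Equiv.Perm V) (i : ℕ) (x : V) :
    (e.permCongr σ)^[i] (e x) = e (σ^[i] x) := by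
  induction i with
  | zero => rfl
  | succ i ih =>
    rw [Function.iterate_succ_apply', Function.iterate_succ_apply', ih, Equiv.permCongr_apply,
      Equiv.symm_apply_apply]

lemma period_glue {V : Type} (n q : ℕ) (e : Fin (n + 1) ⊕ Fin q ≃ V) (ρ : Equiv.Perm (Fin q)) :
    Function.minimalPeriod (e.permCongr (glue n q ρ)) (e (Sum.inl 0)) = n + 1 := by
  apply Nat.dvd_antisymm
  · rw [← Function.isPeriodicPt_iff_minimalPeriod_dvd]
    unfold Function.IsPeriodicPt Function.IsFixedPt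
    rw [permCongr_iter, glue_iter]
    simp
  · have h := Function.isPeriodicPt_minimalPeriod (e.permCongr (glue n q ρ)) (e (Sum.inl 0))
    set d := Function.minimalPeriod (e.permCongr (glue n q ρ)) (e (Sum.inl 0)) with hd
    unfold Function.IsPeriodicPt Function.IsFixedPt at h
    rw [permCongr_iter, glue_iter] at h
    have h2 := Sum.inl.inj (e.injective h)
    have h3 := congrArg Fin.val h2
    simp only [Fin.val_zero] at h3
    exact Nat.dvd_of_mod_eq_zero h3

/-- a permutation of a sum fixing the first summand pointwise, or moving it by `τ₁` -/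
lemma split_sum {n q : ℕ} (θ : Equiv.Perm (Fin (n + 1) ⊕ Fin q)) (τ₁ : Equiv.Perm (Fin (n + 1)))
    (h : ∀ i, θ (Sum.inl i) = Sum.inl (τ₁ i)) : ∃ ρ : Equiv.Perm (Fin q), θ = Equiv.sumCongr τ₁ ρ := by
  classical
  have h1 : θ ∈ (Equiv.Perm.sumCongrHom (Fin (n + 1)) (Fin q)).range := by
    apply Equiv.Perm.mem_sumCongrHom_range_of_perm_mapsTo_inl
    rintro _ ⟨i, rfl⟩
    exact ⟨τ₁ i, (h i).symm⟩
  obtain ⟨⟨τ, ρ⟩, h2⟩ := h1
  rw [Equiv.Perm.sumCongrHom_apply] at h2
  refine ⟨ρ, ?_⟩
  have h3 : τ = τ₁ := by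
    ext i
    have h4 := h i
    rw [← h2, Equiv.Perm.sumCongr_apply, Sum.map_inl] at h4
    rw [Sum.inl.inj h4]
  rw [← h2, h3]

lemma exists_glue {V : Type} [Fintype V] {n q : ℕ} (hc : Fintype.card V = n + 1 + q)
    (σ : Equiv.Perm V) (a : V) (h : Function.minimalPeriod σ a = n + 1) :
    ∃ (e : Fin (n + 1) ⊕ Fin q ≃ V) (ρ : Equiv.Perm (Fin q)),
      e (Sum.inl 0) = a ∧ e.permCongr (glue n q ρ) = σ := by
  classical
  set ι : Fin (n + 1) → V := fun i => σ^[(i : ℕ)] a with hι
  have hinj : Function.Injective ι := by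
    intro i j hij
    rw [hι] at hij
    have h1 : (i : ℕ) < Function.minimalPeriod σ a := by rw [h]; exact i.2
    have h2 : (j : ℕ) < Function.minimalPeriod σ a := by rw [h]; exact j.2
    exact Fin.ext ((Function.iterate_eq_iterate_iff_of_lt_minimalPeriod h1 h2).1 hij)
  have hcard : Fintype.card ((Set.range ι)ᶜ : Set V) = q := by
    rw [Fintype.card_compl_set, hc, Set.card_range_of_injective hinj, Fintype.card_fin]
    omega
  obtain ⟨e2⟩ : Nonempty (Fin q ≃ ((Set.range ι)ᶜ : Set V)) :=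
    ⟨(Fintype.equivFinOfCardEq hcard).symm⟩
  set e : Fin (n + 1) ⊕ Fin q ≃ V :=
    (Equiv.sumCongr (Equiv.ofInjective ι hinj) e2).trans (Equiv.Set.sumCompl (Set.range ι)) with he
  have he1 : ∀ i, e (Sum.inl i) = σ^[(i : ℕ)] a := by
    intro i
    rw [he]
    simp [hι]
  have hθ : ∀ i, (e.symm.permCongr σ) (Sum.inl i) = Sum.inl (finRotate (n + 1) i) := by
    intro i
    rw [Equiv.permCongr_apply, Equiv.symm_symm, Equiv.symm_apply_eq, he1, he1, finRotate_apply,
      ← Function.iterate_succ_apply' σ]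
    rcases Nat.lt_or_ge ((i : ℕ) + 1) (n + 1) with hlt | hge
    · have h3 : ((i + 1 : Fin (n + 1)) : ℕ) = i + 1 := by
        rw [Fin.val_add_one_of_lt]
        rw [Fin.lt_def, Fin.val_last]
        omega
      rw [h3]
    · have h3 : i = Fin.last n := by
        apply Fin.ext
        rw [Fin.val_last]
        have := i.2
        omega
      rw [h3, Fin.last_add_one, Fin.val_last, Fin.val_zero]
      have h4 := Function.iterate_minimalPeriod (f := σ) (x := a)
      rw [h] at h4
      exact h4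
  obtain ⟨ρ, hρ⟩ := split_sum _ _ hθ
  refine ⟨e, ρ, ?_, ?_⟩
  · rw [he1]; rfl
  · have h5 : glue n q ρ = e.symm.permCongr σ := hρ.symm
    rw [h5]
    ext x
    simp [Equiv.permCongr_apply]

/-- the fibres of the gluing map -/
lemma card_fibre {V : Type} [Fintype V] [DecidableEq V] {n q : ℕ} (hc : Fintype.card V = n + 1 + q)
    (σ : Equiv.Perm V) (a : V) (h : Function.minimalPeriod σ a = n + 1) :
    (univ.filter fun y : (Fin (n + 1) ⊕ Fin q ≃ V) × Equiv.Perm (Fin q) =>
      (y.1 (Sum.inl 0), y.1.permCongr (glue n q y.2)) = (a, σ)).card = q.factorial := by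
  classical
  obtain ⟨e0, ρ0, ha, hσ⟩ := exists_glue hc σ a h
  have h1 : (univ : Finset (Equiv.Perm (Fin q))).card = q.factorial := by
    rw [card_univ, Fintype.card_perm, Fintype.card_fin]
  rw [← h1]
  symm
  apply card_bij (fun (τ : Equiv.Perm (Fin q)) _ =>
    (((Equiv.sumCongr (Equiv.refl (Fin (n + 1))) τ).trans e0 : Fin (n + 1) ⊕ Fin q ≃ V),
      (τ⁻¹ * ρ0 * τ : Equiv.Perm (Fin q))))
  · intro τ _
    rw [mem_filter]
    refine ⟨mem_univ _, ?_⟩
    rw [Prod.mk.injEq]
    refine ⟨by simpa using ha, ?_⟩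
    rw [← hσ]
    ext x
    rw [Equiv.permCongr_apply, Equiv.permCongr_apply]
    simp only [Equiv.symm_trans_apply, Equiv.trans_apply]
    congr 1
    generalize e0.symm x = y
    rcases y with y | y
    · simp [glue]
    · simp [glue]
  · intro τ _ τ' _ hh
    have h2 := congrArg Prod.fst hh
    simp only at h2
    ext y
    have h3 := congrArg (fun e : Fin (n + 1) ⊕ Fin q ≃ V => e (Sum.inr y)) h2
    simp only [Equiv.trans_apply, Equiv.sumCongr_apply, Sum.map_inr] at h3
    have h4 := Sum.inr.inj (e0.injective h3)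
    rw [h4]
  · rintro ⟨e, ρ⟩ hy
    rw [mem_filter, Prod.mk.injEq] at hy
    obtain ⟨-, ha', hσ'⟩ := hy
    simp only at ha' hσ'
    have he : ∀ i : Fin (n + 1), (e.trans e0.symm) (Sum.inl i) = Sum.inl i := by
      intro i
      rw [Equiv.trans_apply, Equiv.symm_apply_eq]
      have h0 : (⟨(i : ℕ) % (n + 1), Nat.mod_lt _ (Nat.succ_pos n)⟩ : Fin (n + 1)) = i :=
        Fin.ext (Nat.mod_eq_of_lt i.2)
      have h2 : e (Sum.inl i) = σ^[(i : ℕ)] a := by
        rw [← hσ', ← ha', permCongr_iter, glue_iter, h0]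
      have h3 : e0 (Sum.inl i) = σ^[(i : ℕ)] a := by
        rw [← hσ, ← ha, permCongr_iter, glue_iter, h0]
      rw [h2, h3]
    obtain ⟨τ, hτ⟩ := split_sum (e.trans e0.symm) (Equiv.refl _) (by simpa using he)
    have hee : e = (Equiv.sumCongr (Equiv.refl (Fin (n + 1))) τ).trans e0 := by
      rw [← hτ]
      ext x
      simp
    refine ⟨τ, mem_univ _, ?_⟩
    rw [Prod.mk.injEq]
    refine ⟨hee.symm, ?_⟩
    have h5 : e.permCongr (glue n q ρ) = e0.permCongr (glue n q ρ0) := by rw [hσ, hσ']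
    ext y
    have h6 := congrArg (fun s : Equiv.Perm V => s (e (Sum.inr y))) h5
    simp only [Equiv.permCongr_apply, Equiv.symm_apply_apply] at h6
    rw [hee] at h6
    simp only [Equiv.trans_apply, Equiv.symm_apply_apply, Equiv.sumCongr_apply, Sum.map_inr, glue]
      at h6
    have h7 := Sum.inr.inj (e0.injective h6)
    rw [Equiv.Perm.mul_apply, Equiv.Perm.mul_apply, ← h7]
    simp

/-- summation over permutations with a marked point of period `n + 1` -/
lemma sum_marked {V : Type} [Fintype V] [DecidableEq V] {n q : ℕ} (hc : Fintype.card V = n + 1 + q)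
    (f : (V : Type) → Equiv.Perm V → R)
    (hf : ∀ (V V' : Type) (e : V ≃ V') (σ : Equiv.Perm V), f V' (e.permCongr σ) = f V σ) :
    ((n + 1 + q).factorial : R) * ∑ ρ : Equiv.Perm (Fin q), f (Fin (n + 1) ⊕ Fin q) (glue n q ρ) =
      (q.factorial : R) * ∑ y : V × Equiv.Perm V,
        if Function.minimalPeriod y.2 y.1 = n + 1 then f V y.2 else 0 := by
  classical
  have h1 : ∑ y : (Fin (n + 1) ⊕ Fin q ≃ V) × Equiv.Perm (Fin q),
      f V (y.1.permCongr (glue n q y.2)) =
      ((n + 1 + q).factorial : R) * ∑ ρ : Equiv.Perm (Fin q), f (Fin (n + 1) ⊕ Fin q) (glue n q ρ) := by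
    rw [Fintype.sum_prod_type]
    simp only [hf]
    rw [sum_const, card_univ, nsmul_eq_mul]
    congr 2
    have e : Fin (n + 1) ⊕ Fin q ≃ V := by
      apply Fintype.equivOfCardEq
      rw [Fintype.card_sum, Fintype.card_fin, Fintype.card_fin, hc]
    rw [Fintype.card_equiv e, Fintype.card_sum, Fintype.card_fin, Fintype.card_fin]
  rw [← h1]
  have h2 : ∑ y : (Fin (n + 1) ⊕ Fin q ≃ V) × Equiv.Perm (Fin q),
      f V (y.1.permCongr (glue n q y.2)) =
      ∑ z : V × Equiv.Perm V, ∑ y ∈ univ.filter (fun y : (Fin (n + 1) ⊕ Fin q ≃ V) × Equiv.Perm (Fin q) =>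
        (y.1 (Sum.inl 0), y.1.permCongr (glue n q y.2)) = z), f V (y.1.permCongr (glue n q y.2)) :=
    (sum_fiberwise_of_maps_to (fun y _ => mem_univ _) _).symm
  rw [h2, mul_sum]
  apply sum_congr rfl
  rintro ⟨a, σ⟩ _
  have h3 : ∑ y ∈ univ.filter (fun y : (Fin (n + 1) ⊕ Fin q ≃ V) × Equiv.Perm (Fin q) =>
        (y.1 (Sum.inl 0), y.1.permCongr (glue n q y.2)) = (a, σ)), f V (y.1.permCongr (glue n q y.2)) =
      ∑ y ∈ univ.filter (fun y : (Fin (n + 1) ⊕ Fin q ≃ V) × Equiv.Perm (Fin q) =>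
        (y.1 (Sum.inl 0), y.1.permCongr (glue n q y.2)) = (a, σ)), f V σ := by
    apply sum_congr rfl
    intro y hy
    rw [mem_filter, Prod.mk.injEq] at hy
    rw [hy.2.2]
  rw [h3, sum_const, nsmul_eq_mul]
  by_cases hp : Function.minimalPeriod σ a = n + 1
  · rw [if_pos hp, card_fibre hc σ a hp]
  · rw [if_neg hp, mul_zero]
    have h4 : (univ.filter fun y : (Fin (n + 1) ⊕ Fin q ≃ V) × Equiv.Perm (Fin q) =>
        (y.1 (Sum.inl 0), y.1.permCongr (glue n q y.2)) = (a, σ)) = ∅ := by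
      rw [filter_eq_empty_iff]
      rintro ⟨e, ρ⟩ _ hy
      rw [Prod.mk.injEq] at hy
      simp only at hy
      apply hp
      rw [← hy.1, ← hy.2]
      exact period_glue n q e ρ
    rw [h4]
    simp

/-! ### the recurrence -/

/-- the mean of `f` over the permutations of `Fin p` -/
def F (f : (V : Type) → Equiv.Perm V → R) (p : ℕ) : R :=
  ((p.factorial : ℚ)⁻¹) • ∑ σ : Equiv.Perm (Fin p), f (Fin p) σ

/-- add a cycle of length `l` -/
def addc (f : (V : Type) → Equiv.Perm V → R) (l : ℕ) : (V : Type) → Equiv.Perm V → R :=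
  fun V ρ => f (Fin l ⊕ V) (Equiv.sumCongr (finRotate l) ρ)

lemma fact_smul (a : ℕ) (y : R) : ((a.factorial : ℚ)⁻¹) • ((a.factorial : R) * y) = y := by
  have h : (a.factorial : ℚ) ≠ 0 := by exact_mod_cast a.factorial_ne_zero
  rw [← nsmul_eq_mul, ← Nat.cast_smul_eq_nsmul ℚ, smul_smul, inv_mul_cancel₀ h, one_smul]

lemma F_rec (f : (V : Type) → Equiv.Perm V → R)
    (hf : ∀ (V V' : Type) (e : V ≃ V') (σ : Equiv.Perm V), f V' (e.permCongr σ) = f V σ) (p : ℕ) :
    (p : R) * F f p = ∑ l ∈ Icc 1 p, F (addc f l) (p - l) := by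
  classical
  have h1 : ∀ l ∈ Icc 1 p, F (addc f l) (p - l) =
      ((p.factorial : ℚ)⁻¹) • ∑ y : Fin p × Equiv.Perm (Fin p),
        if Function.minimalPeriod y.2 y.1 = l then f (Fin p) y.2 else 0 := by
    intro l hl
    rw [mem_Icc] at hl
    obtain ⟨n, rfl⟩ : ∃ n, l = n + 1 := ⟨l - 1, by omega⟩
    obtain ⟨q, hq⟩ : ∃ q, p = n + 1 + q := ⟨p - (n + 1), by omega⟩
    have h2 := sum_marked (V := Fin p) (n := n) (q := q) (by rw [Fintype.card_fin, hq]) f hf
    rw [show p - (n + 1) = q by omega]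
    unfold F addc
    have h3 : ∑ ρ : Equiv.Perm (Fin q), f (Fin (n + 1) ⊕ Fin q) (Equiv.sumCongr (finRotate (n + 1)) ρ) =
        ∑ ρ : Equiv.Perm (Fin q), f (Fin (n + 1) ⊕ Fin q) (glue n q ρ) := rfl
    rw [h3, ← hq] at *
    set A := ∑ ρ : Equiv.Perm (Fin q), f (Fin (n + 1) ⊕ Fin q) (glue n q ρ)
    set B := ∑ y : Fin p × Equiv.Perm (Fin p),
        if Function.minimalPeriod y.2 y.1 = n + 1 then f (Fin p) y.2 else 0
    calc ((q.factorial : ℚ)⁻¹) • A
        = ((q.factorial : ℚ)⁻¹) • (((p.factorial : ℚ)⁻¹) • ((p.factorial : R) * A)) := by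
          rw [fact_smul]
      _ = ((q.factorial : ℚ)⁻¹) • (((p.factorial : ℚ)⁻¹) • ((q.factorial : R) * B)) := by rw [h2]
      _ = ((p.factorial : ℚ)⁻¹) • (((q.factorial : ℚ)⁻¹) • ((q.factorial : R) * B)) :=
          smul_comm _ _ _
      _ = ((p.factorial : ℚ)⁻¹) • B := by rw [fact_smul]
  rw [sum_congr rfl h1, ← smul_sum, sum_comm]
  unfold F
  rw [mul_smul_comm]
  congr 1
  rw [Fintype.sum_prod_type]
  have h4 : ∀ (a : Fin p) (σ : Equiv.Perm (Fin p)), (∑ l ∈ Icc 1 p,
      if Function.minimalPeriod σ a = l then f (Fin p) σ else 0) = f (Fin p) σ := by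
    intro a σ
    rw [sum_ite_eq, if_pos]
    rw [mem_Icc]
    constructor
    · apply Nat.one_le_iff_ne_zero.2
      apply ne_of_gt
      apply Function.minimalPeriod_pos_of_mem_periodicPts
      exact σ.injective.mem_periodicPts a
    · have h5 : Function.minimalPeriod σ a ≤ Fintype.card (Fin p) := by
        have := Function.minimalPeriod_le_card (f := σ) (x := a)
        exact this
      rwa [Fintype.card_fin] at h5
  simp only [h4]
  rw [sum_const, card_univ, Fintype.card_fin, nsmul_eq_mul]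

/-! ### the sigma types -/

lemma cons_natural (f : (V : Type) → Equiv.Perm V → R)
    (hf : ∀ (V V' : Type) (e : V ≃ V') (σ : Equiv.Perm V), f V' (e.permCongr σ) = f V σ)
    (l k : ℕ) (m : Fin k → ℕ) :
    addc f l (Σ i : Fin k, Fin (m i)) (rot m) =
      f (Σ i : Fin (k + 1), Fin ((Fin.cons l m : Fin (k + 1) → ℕ) i)) (rot (Fin.cons l m)) := by
  set g : Fin l ⊕ (Σ i : Fin k, Fin (m i)) →
      Σ i : Fin (k + 1), Fin ((Fin.cons l m : Fin (k + 1) → ℕ) i) := fun y =>
    match y with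
    | Sum.inl a => ⟨0, a⟩
    | Sum.inr ⟨i, b⟩ => ⟨i.succ, b⟩ with hg
  have hbij : Function.Bijective g := by
    constructor
    · rintro (a | ⟨i, b⟩) (a' | ⟨i', b'⟩) h
      · have h1 := (Sigma.mk.inj_iff (β := fun i => Fin ((Fin.cons l m : Fin (k + 1) → ℕ) i))).1 h
        have h2 : a = a' := eq_of_heq h1.2
        rw [h2]
      · have h1 := (Sigma.mk.inj_iff (β := fun i => Fin ((Fin.cons l m : Fin (k + 1) → ℕ) i))).1 h
        exact absurd h1.1.symm (Fin.succ_ne_zero _)
      · have h1 := (Sigma.mk.inj_iff (β := fun i => Fin ((Fin.cons l m : Fin (k + 1) → ℕ) i))).1 h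
        exact absurd h1.1 (Fin.succ_ne_zero _)
      · have h0 := (Sigma.mk.inj_iff (β := fun i => Fin ((Fin.cons l m : Fin (k + 1) → ℕ) i))).1 h
        obtain ⟨h1, h2⟩ := h0
        have h3 := Fin.succ_injective _ h1
        subst h3
        have h4 : b = b' := eq_of_heq h2
        rw [h4]
    · rintro ⟨i, b⟩
      revert b
      refine Fin.cases ?_ ?_ i
      · intro b
        exact ⟨Sum.inl b, rfl⟩
      · intro i b
        exact ⟨Sum.inr ⟨i, b⟩, rfl⟩
  unfold addc
  rw [← hf _ _ (Equiv.ofBijective g hbij)]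
  congr 1
  ext y : 1
  obtain ⟨z, rfl⟩ := hbij.2 y
  have h1 : (Equiv.ofBijective g hbij).symm (g z) = z := Equiv.ofBijective_symm_apply_apply g hbij z
  rw [Equiv.permCongr_apply, h1]
  rcases z with a | ⟨i, b⟩
  · rfl
  · rfl

lemma perm_natural (f : (V : Type) → Equiv.Perm V → R)
    (hf : ∀ (V V' : Type) (e : V ≃ V') (σ : Equiv.Perm V), f V' (e.permCongr σ) = f V σ)
    (k : ℕ) (e : Equiv.Perm (Fin k)) (m : Fin k → ℕ) :
    f (Σ i : Fin k, Fin ((m ∘ e) i)) (rot (m ∘ e)) = f (Σ i : Fin k, Fin (m i)) (rot m) := by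
  refine (hf _ _ (Equiv.sigmaCongrLeft (β := fun i => Fin (m i)) e) (rot (m ∘ e))).symm.trans ?_
  congr 1
  ext y : 1
  obtain ⟨⟨i, b⟩, rfl⟩ := (Equiv.sigmaCongrLeft (β := fun i => Fin (m i)) e).surjective y
  rw [Equiv.permCongr_apply, Equiv.symm_apply_apply]
  rfl

/-- **Part 2.** -/
theorem cyc : S_rec → S_cyc := by
  intro hrec f hf p
  suffices H : ∀ (p : ℕ) (f : (V : Type) → Equiv.Perm V → R),
      (∀ (V V' : Type) (e : V ≃ V') (σ : Equiv.Perm V), f V' (e.permCongr σ) = f V σ) →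
      F f p = T wp p (fun k m => f (Σ i : Fin k, Fin (m i)) (rot m)) from H p f hf
  clear hf p f
  intro p
  induction p using Nat.strong_induction_on with
  | _ p ih =>
    intro f hf
    rcases Nat.eq_zero_or_pos p with rfl | hp
    · unfold F T
      have h0 : tup 0 0 = {Fin.elim0} := by
        ext m
        rw [mem_singleton]
        constructor
        · intro _; exact Subsingleton.elim _ _
        · rintro rfl
          simp only [tup, mem_filter]
          refine ⟨?_, by simp⟩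
          rw [Fintype.mem_piFinset]
          intro i
          exact i.elim0
      simp only [zero_add, range_one, sum_singleton, h0]
      rw [Fintype.sum_unique]
      simp only [Nat.factorial_zero, Nat.cast_one, inv_one, univ_eq_empty, prod_empty, mul_one, one_smul]
      rw [← hf _ _ (Equiv.equivOfIsEmpty (Fin 0) (Σ i : Fin 0, Fin ((Fin.elim0 : Fin 0 → ℕ) i)))]
      congr 1
      ext y : 1
      exact y.1.elim0
    · have h1 := F_rec f hf p
      have h2 := hrec 1 (fun k m => f (Σ i : Fin k, Fin (m i)) (rot m)) (fun k e m => perm_natural f hf k e m) p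
      have hw : (fun l : ℕ => (1 : ℚ) * (l : ℚ)⁻¹) = wp := by
        funext l
        rw [one_mul]; rfl
      rw [hw, one_smul] at h2
      have hnat : ∀ l, ∀ (V V' : Type) (e : V ≃ V') (σ : Equiv.Perm V),
          addc f l V' (e.permCongr σ) = addc f l V σ := by
        intro l V V' e σ
        unfold addc
        rw [← hf _ _ (Equiv.sumCongr (Equiv.refl (Fin l)) e)]
        congr 1
        ext y : 1
        rcases y with y | y
        · simp [Equiv.permCongr_apply]
        · simp [Equiv.permCongr_apply]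
      have h3 : ∑ l ∈ Icc 1 p, F (addc f l) (p - l) = ∑ l ∈ Icc 1 p, T wp (p - l)
          (fun k m => f (Σ i : Fin (k + 1), Fin ((Fin.cons l m : Fin (k + 1) → ℕ) i))
            (rot (Fin.cons l m))) := by
        apply sum_congr rfl
        intro l hl
        rw [mem_Icc] at hl
        rw [ih (p - l) (by omega) (addc f l) (hnat l)]
        congr 1
        funext k m
        exact cons_natural f hf l k m
      rw [h3] at h1
      have h4 : (p : R) ≠ 0 := by
        exact_mod_cast (Nat.pos_iff_ne_zero.1 hp)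
      apply mul_left_cancel₀ h4
      rw [h1, h2]

end

end Pool.Agent.W42.HI
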