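import Mathlib
import Pool.Agent.W871.HI.Stm3

set_option autoImplicit false

/-!
# MP_5f0aae_co: inclusion-exclusion and factorisation
-/

open Finset

namespace Pool.Agent.W42.HI

open Pool.Agent.W871.HI

noncomputable section

/-! ### products over pairs -/

lemma prod_pairs_split {ι M : Type*} [Fintype ι] [LinearOrder ι] [CommMonoid M]
    (F : ι → ι → M) (hF : ∀ i j, F i j = F j i) (U : Finset ι) :
    (∏ i, ∏ j, if i < j then F i j else 1) =
      (∏ i ∈ U, ∏ j ∈ U, if i < j then F i j else 1) *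
      (∏ i ∈ Uᶜ, ∏ j ∈ Uᶜ, if i < j then F i j else 1) * ∏ i ∈ U, ∏ j ∈ Uᶜ, F i j := by
  classical
  have h1 : ∀ i, (∏ j, if i < j then F i j else 1) =
      (∏ j ∈ U, if i < j then F i j else 1) * ∏ j ∈ Uᶜ, if i < j then F i j else 1 :=
    fun i => (prod_mul_prod_compl U _).symm
  rw [← prod_mul_prod_compl U]
  simp only [h1, prod_mul_distrib]
  have h2 : (∏ i ∈ Uᶜ, ∏ j ∈ U, if i < j then F i j else 1) =
      ∏ i ∈ U, ∏ j ∈ Uᶜ, if j < i then F j i else 1 := prod_comm
  have h3 : (∏ i ∈ U, ∏ j ∈ Uᶜ, if i < j then F i j else 1) *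
      (∏ i ∈ U, ∏ j ∈ Uᶜ, if j < i then F j i else 1) = ∏ i ∈ U, ∏ j ∈ Uᶜ, F i j := by
    rw [← prod_mul_distrib]
    apply prod_congr rfl
    intro i hi
    rw [← prod_mul_distrib]
    apply prod_congr rfl
    intro j hj
    rw [mem_compl] at hj
    have hne : i ≠ j := fun h => hj (h ▸ hi)
    rcases lt_or_gt_of_ne hne with h | h
    · rw [if_pos h, if_neg (not_lt.2 h.le), mul_one]
    · rw [if_neg (not_lt.2 h.le), if_pos h, one_mul, hF]
  rw [h2, ← h3]
  set A := ∏ i ∈ U, ∏ j ∈ U, if i < j then F i j else 1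
  set B := ∏ i ∈ U, ∏ j ∈ Uᶜ, if i < j then F i j else 1
  set C := ∏ i ∈ U, ∏ j ∈ Uᶜ, if j < i then F j i else 1
  set D := ∏ i ∈ Uᶜ, ∏ j ∈ Uᶜ, if i < j then F i j else 1
  calc A * B * (C * D) = A * (B * (C * D)) := mul_assoc _ _ _
    _ = A * (D * (B * C)) := by rw [← mul_assoc B C D, mul_comm (B * C) D]
    _ = A * D * (B * C) := (mul_assoc _ _ _).symm

lemma prod_Ioi_eq {k : ℕ} {M : Type*} [CommMonoid M] (F : Fin k → Fin k → M) :
    (∏ i, ∏ j ∈ Ioi i, F i j) = ∏ i, ∏ j, if i < j then F i j else 1 := by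
  apply prod_congr rfl
  intro i _
  rw [← prod_filter]
  congr 1
  ext j
  simp

lemma prod_emb {k : ℕ} {M : Type*} [CommMonoid M] (U : Finset (Fin k)) (f : Fin k → M) :
    ∏ i ∈ U, f i = ∏ a : Fin U.card, f (U.orderEmbOfFin rfl a) := by
  conv_lhs => rw [← Finset.map_orderEmbOfFin_univ U rfl]
  rw [prod_map]
  rfl

lemma prod_emb2 {k : ℕ} {M : Type*} [CommMonoid M] (U : Finset (Fin k)) (F : Fin k → Fin k → M) :
    (∏ i ∈ U, ∏ j ∈ U, if i < j then F i j else 1) =
      ∏ a : Fin U.card, ∏ b ∈ Ioi a, F (U.orderEmbOfFin rfl a) (U.orderEmbOfFin rfl b) := by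
  rw [prod_Ioi_eq, prod_emb U]
  apply prod_congr rfl
  intro a _
  rw [prod_emb U]
  apply prod_congr rfl
  intro b _
  simp only [OrderEmbedding.lt_iff_lt]

/-! ### the factors -/

lemma pairP_symm {A : Type*} [CommRing A] [Algebra R A] (a b : A) (l m : ℕ) :
    pairP a b l m = pairP b a m l := by
  unfold pairP
  rw [Nat.lcm_comm l m, Nat.gcd_comm l m, mul_right_comm]

lemma map_pairP {A B : Type*} [CommRing A] [Algebra R A] [CommRing B] [Algebra R B]
    (f : A →ₐ[R] B) (a b : A) (l m : ℕ) : f (pairP a b l m) = pairP (f a) (f b) l m := by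
  unfold pairP
  simp [AlgHom.commutes]

/-! ### substitution -/

/-- the substitution: `X u` for `i = e u`, `1` for the other indices -/
def sub {k : ℕ} (U : Finset (Fin k)) (i : Fin k) : MvPolynomial (Fin U.card) R :=
  if h : i ∈ U then MvPolynomial.X ((U.orderIsoOfFin rfl).symm ⟨i, h⟩) else 1

lemma sub_mem {k : ℕ} (U : Finset (Fin k)) (a : Fin U.card) :
    sub U (U.orderEmbOfFin rfl a) = MvPolynomial.X a := by
  unfold sub
  have h : U.orderEmbOfFin rfl a ∈ U := Finset.orderEmbOfFin_mem U rfl a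
  rw [dif_pos h]
  congr 1
  rw [OrderIso.symm_apply_eq]
  rfl

lemma sub_not_mem {k : ℕ} (U : Finset (Fin k)) (a : Fin (Uᶜ).card) :
    sub U ((Uᶜ).orderEmbOfFin rfl a) = 1 := by
  unfold sub
  have h : (Uᶜ).orderEmbOfFin rfl a ∈ Uᶜ := Finset.orderEmbOfFin_mem _ rfl a
  rw [mem_compl] at h
  rw [dif_neg h]

lemma aeval_P {k : ℕ} {A : Type*} [CommRing A] [Algebra R A] (φ : Fin k → A) (S : ℕ → Polynomial R)
    (m : Fin k → ℕ) :
    MvPolynomial.aeval φ (P S k m) = (∏ i, Polynomial.aeval (φ i) (S (m i))) *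
      ∏ i, ∏ j ∈ Ioi i, pairP (φ i) (φ j) (m i) (m j) := by
  unfold P
  rw [map_mul, map_prod, map_prod]
  congr 1
  · apply prod_congr rfl
    intro i _
    rw [← Polynomial.aeval_algHom_apply, MvPolynomial.aeval_X]
  · apply prod_congr rfl
    intro i _
    rw [map_prod]
    apply prod_congr rfl
    intro j _
    rw [map_pairP, MvPolynomial.aeval_X, MvPolynomial.aeval_X]

/-- the sum of the coefficients with prescribed exponent `2` on `U` -/
lemma coeff_sub {k : ℕ} (U : Finset (Fin k)) (Q : MvPolynomial (Fin k) R) :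
    MvPolynomial.coeff (Finsupp.equivFunOnFinite.symm fun _ => 2)
      (MvPolynomial.aeval (sub U) Q) =
    ∑ d ∈ Q.support with (∀ i ∈ U, d i = 2), MvPolynomial.coeff d Q := by
  classical
  have h0 : MvPolynomial.aeval (sub U) Q = ∑ d ∈ Q.support,
      MvPolynomial.monomial (Finsupp.equivFunOnFinite.symm fun a : Fin U.card =>
        d (U.orderEmbOfFin rfl a)) (MvPolynomial.coeff d Q) := by
    conv_lhs => rw [MvPolynomial.as_sum Q]
    rw [map_sum]
    apply sum_congr rfl
    intro d _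
    rw [MvPolynomial.aeval_monomial, Finsupp.prod_fintype _ _ (fun i => pow_zero _),
      ← prod_mul_prod_compl U, prod_emb U, prod_emb Uᶜ]
    simp only [sub_mem, sub_not_mem, one_pow, prod_const_one, mul_one]
    rw [MvPolynomial.monomial_eq]
    rw [Finsupp.prod_fintype _ _ (fun i => pow_zero _)]
    rfl
  rw [h0, MvPolynomial.coeff_sum, sum_filter]
  apply sum_congr rfl
  intro d _
  rw [MvPolynomial.coeff_monomial]
  have h1 : (Finsupp.equivFunOnFinite.symm fun a : Fin U.card => d (U.orderEmbOfFin rfl a)) =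
      (Finsupp.equivFunOnFinite.symm fun _ => 2) ↔ ∀ i ∈ U, d i = 2 := by
    rw [Equiv.apply_eq_iff_eq, funext_iff]
    constructor
    · intro h i hi
      have := h ((U.orderIsoOfFin rfl).symm ⟨i, hi⟩)
      rwa [← Finset.coe_orderIsoOfFin_apply, OrderIso.apply_symm_apply] at this
    · intro h a
      exact h _ (Finset.orderEmbOfFin_mem U rfl a)
  by_cases h2 : ∀ i ∈ U, d i = 2
  · rw [if_pos (h1.2 h2), if_pos h2]
  · rw [if_neg (fun h => h2 (h1.1 h)), if_neg h2]

/-- inclusion-exclusion -/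
lemma incl_excl {k : ℕ} (Q : MvPolynomial (Fin k) R) :
    ∑ d ∈ Q.support with (∀ i, d i ≠ 2), MvPolynomial.coeff d Q =
    ∑ U : Finset (Fin k), (-1) ^ U.card *
      ∑ d ∈ Q.support with (∀ i ∈ U, d i = 2), MvPolynomial.coeff d Q := by
  classical
  have h1 : ∀ d : Fin k →₀ ℕ, (if ∀ i, d i ≠ 2 then (1 : R) else 0) =
      ∑ U : Finset (Fin k), (-1) ^ U.card * (if ∀ i ∈ U, d i = 2 then 1 else 0) := by
    intro d
    have h2 : (if ∀ i, d i ≠ 2 then (1 : R) else 0) =
        ∏ i, ((-(if d i = 2 then (1 : R) else 0)) + 1) := by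
      by_cases h : ∀ i, d i ≠ 2
      · rw [if_pos h]
        symm
        apply prod_eq_one
        intro i _
        rw [if_neg (h i)]; simp
      · rw [if_neg h]
        push Not at h
        obtain ⟨i, hi⟩ := h
        symm
        apply prod_eq_zero (mem_univ i)
        rw [if_pos hi]; ring
    rw [h2, prod_add, powerset_univ]
    apply sum_congr rfl
    intro U _
    rw [prod_const_one, mul_one, prod_neg]
    congr 1
    by_cases h : ∀ i ∈ U, d i = 2
    · rw [if_pos h]
      apply prod_eq_one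
      intro i hi
      rw [if_pos (h i hi)]
    · rw [if_neg h]
      push Not at h
      obtain ⟨i, hi, hne⟩ := h
      apply prod_eq_zero hi
      rw [if_neg hne]
  rw [sum_filter]
  have h3 : ∀ d ∈ Q.support, (if ∀ i, d i ≠ 2 then MvPolynomial.coeff d Q else 0) =
      ∑ U : Finset (Fin k), (-1) ^ U.card * (if ∀ i ∈ U, d i = 2 then MvPolynomial.coeff d Q else 0) := by
    intro d _
    have h4 : (if ∀ i, d i ≠ 2 then MvPolynomial.coeff d Q else 0) =
        (if ∀ i, d i ≠ 2 then (1 : R) else 0) * MvPolynomial.coeff d Q := by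
      split_ifs <;> simp
    rw [h4, h1, sum_mul]
    apply sum_congr rfl
    intro U _
    split_ifs <;> simp
  rw [sum_congr rfl h3, sum_comm]
  apply sum_congr rfl
  intro U _
  rw [sum_filter, mul_sum]

lemma aeval_selfP_one {A : Type*} [CommRing A] [Algebra R A] (l : ℕ) :
    Polynomial.aeval (1 : A) (selfP l) =
      algebraMap R A ((1 + x ^ l) ^ ((l - 1) / 2) * (if Even l then 1 + x ^ (l / 2) else 1)) := by
  unfold selfP
  split_ifs <;> simp

lemma pairP_one {A : Type*} [CommRing A] [Algebra R A] (l m : ℕ) :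
    pairP (1 : A) 1 l m = algebraMap R A ((1 + x ^ Nat.lcm l m) ^ Nat.gcd l m) := by
  unfold pairP
  simp

lemma aeval_sub_P {k : ℕ} (U : Finset (Fin k)) (m : Fin k → ℕ) :
    MvPolynomial.aeval (sub U) (P selfP k m) =
      MvPolynomial.C (G0 (Uᶜ).card (res Uᶜ m)) * P (Senv (Uᶜ).card (res Uᶜ m)) U.card (res U m) := by
  classical
  rw [aeval_P, prod_Ioi_eq, prod_pairs_split _ (fun i j => pairP_symm _ _ _ _) U, prod_emb2, prod_emb2,
    prod_emb U, ← prod_mul_prod_compl U (fun i => Polynomial.aeval (sub U i) (selfP (m i))),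
    prod_emb U, prod_emb Uᶜ]
  simp only [sub_mem, sub_not_mem]
  have h1 : ∀ a : Fin U.card, (∏ j ∈ Uᶜ, pairP (MvPolynomial.X a : MvPolynomial (Fin U.card) R)
      (sub U j) (m (U.orderEmbOfFin rfl a)) (m j)) =
      ∏ b : Fin (Uᶜ).card, pairP (MvPolynomial.X a : MvPolynomial (Fin U.card) R) 1
        (res U m a) (res Uᶜ m b) := by
    intro a
    rw [prod_emb Uᶜ]
    apply prod_congr rfl
    intro b _
    rw [sub_not_mem]
    rfl
  simp only [h1]
  have h2 : (MvPolynomial.C (G0 (Uᶜ).card (res Uᶜ m)) : MvPolynomial (Fin U.card) R) =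
      (∏ b : Fin (Uᶜ).card, Polynomial.aeval (1 : MvPolynomial (Fin U.card) R)
        (selfP (m ((Uᶜ).orderEmbOfFin rfl b)))) *
      ∏ a : Fin (Uᶜ).card, ∏ b ∈ Ioi a, pairP (1 : MvPolynomial (Fin U.card) R) 1
        (m ((Uᶜ).orderEmbOfFin rfl a)) (m ((Uᶜ).orderEmbOfFin rfl b)) := by
    simp only [aeval_selfP_one, pairP_one]
    unfold G0
    rw [← MvPolynomial.algebraMap_eq, map_mul, map_prod, map_prod]
    simp only [map_prod]
    rfl
  have h3 : P (Senv (Uᶜ).card (res Uᶜ m)) U.card (res U m) =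
      ((∏ a : Fin U.card, Polynomial.aeval (MvPolynomial.X a : MvPolynomial (Fin U.card) R)
        (selfP (m (U.orderEmbOfFin rfl a)))) *
      ∏ a : Fin U.card, ∏ b : Fin (Uᶜ).card, pairP (MvPolynomial.X a : MvPolynomial (Fin U.card) R) 1
        (res U m a) (res Uᶜ m b)) *
      ∏ a : Fin U.card, ∏ b ∈ Ioi a, pairP (MvPolynomial.X a : MvPolynomial (Fin U.card) R)
        (MvPolynomial.X b) (m (U.orderEmbOfFin rfl a)) (m (U.orderEmbOfFin rfl b)) := by
    unfold P
    congr 1
    rw [← prod_mul_distrib]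
    apply prod_congr rfl
    intro a _
    unfold Senv
    rw [map_mul, map_prod]
    congr 1
    apply prod_congr rfl
    intro b _
    rw [map_pairP, Polynomial.aeval_X, map_one]
  rw [h2, h3]
  ring

/-- **Part 4a.** -/
theorem fac : S_fac := by
  intro k m
  rw [incl_excl]
  apply sum_congr rfl
  intro U _
  congr 1
  rw [← coeff_sub, aeval_sub_P, MvPolynomial.coeff_C_mul]
  rfl

end

end Pool.Agent.W42.HI
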